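import Pool.Agent.Q314.ET.Gram

/-!
# A propagating left forbidding E0L language which is not an ET0L language
-/

set_option autoImplicit false

namespace Pool.Agent.Results.MP_7f9305_lc.PropagatingNotET0L

open Pool.Agent.Q314.ET

/-- The nonterminals: the markers `m0`, `mg`, `mf` of the three phases, unmarked and marked block
heads `x`, `x'`, and `y` for the letter `b`. -/
inductive Nt : Type
  | m0 : Nt
  | mg : Nt
  | mf : Nt
  | x : Nt
  | x' : Nt
  | y : Nt
  deriving DecidableEq

instance : Finite Nt := by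
  refine Finite.of_injective (β := Fin 6) (fun n => match n with
    | .m0 => 0 | .mg => 1 | .mf => 2 | .x => 3 | .x' => 4 | .y => 5) ?_
  intro a b h
  cases a <;> cases b <;> simp at h <;> rfl

abbrev V := Symbol (Fin 2) Nt
abbrev nt (n : Nt) : V := Symbol.nonterminal n
abbrev ta : V := Symbol.terminal 0
abbrev tb : V := Symbol.terminal 1

/-- the rules `(X → y, ∅, W)` -/
def rules : Set (V × List V × Set Nt × Set Nt) :=
  {(nt .m0, [nt .m0, nt .x], ∅, ∅), (nt .m0, [nt .mg], ∅, ∅),
   (nt .x, [nt .x], ∅, {.mg, .mf}),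
   (nt .mg, [nt .mg, nt .y], ∅, ∅), (nt .mg, [nt .mf, nt .y], ∅, ∅),
   (nt .x, [nt .x, nt .y], ∅, {.m0, .mf}), (nt .x, [nt .x', nt .y], ∅, {.m0, .mf, .x}),
   (nt .x', [nt .x', nt .y], ∅, {.m0, .mf}), (nt .y, [nt .y], ∅, {.m0, .mf}),
   (nt .mf, [ta], ∅, ∅), (nt .x', [ta], ∅, {.m0, .mg}), (nt .y, [tb], ∅, {.m0, .mg})}

/-- the grammar -/
def G : LRCGrammar (Fin 2) where
  N := Nt
  finN := inferInstance
  P := rules
  finP := by unfold rules; exact Set.toFinite _
  ax := [nt .m0]
  ax_ne := by simp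

/-- the blocks with heads given by `l` and `g` symbols `y` each -/
def enc (l : List Bool) (g : ℕ) : List V :=
  l.flatMap fun c => nt (if c then .x' else .x) :: List.replicate g (nt .y)

theorem enc_nil (g : ℕ) : enc [] g = [] := rfl

theorem enc_cons (c : Bool) (l : List Bool) (g : ℕ) :
    enc (c :: l) g = nt (if c then .x' else .x) :: (List.replicate g (nt .y) ++ enc l g) := rfl

/-- applicability of rules, for this grammar -/
def OkV (c : List V) (X : V) (y : List V) : Prop := Ok G c X y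

/-- steps behind a context, for this grammar -/
def SV (c u v : List V) : Prop := SF G c u v

theorem ok_iff (c : List V) (X : V) (y : List V) : OkV c X y ↔
    ∃ U W : Set Nt, (X, y, U, W) ∈ rules ∧ (∀ A ∈ U, nt A ∈ c) ∧ ∀ A ∈ W, nt A ∉ c := Iff.rfl

theorem sv_nil (c v : List V) : SV c [] v ↔ v = [] := Iff.rfl

theorem sv_cons (c : List V) (X : V) (u v : List V) : SV c (X :: u) v ↔
    ∃ y v' : List V, v = y ++ v' ∧ OkV c X y ∧ SV (c ++ [X]) u v' := Iff.rfl

theorem sv_append (u u' c v : List V) : SV c (u ++ u') v ↔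
    ∃ v1 v2 : List V, v = v1 ++ v2 ∧ SV c u v1 ∧ SV (c ++ u) u' v2 := sf_append G u u' c v

/-- the steps, for this grammar -/
def StepV (u v : List V) : Prop := G.Step u v

theorem stepV (u v : List V) : StepV u v ↔ u ≠ [] ∧ SV [] u v := step_iff G u v

/-! ### The applicable rules -/

theorem ok_m0 {c y : List V} (h : OkV c (nt .m0) y) : y = [nt .m0, nt .x] ∨ y = [nt .mg] := by
  obtain ⟨U, W, h1, _, _⟩ := (ok_iff _ _ _).1 h
  simp only [rules, Set.mem_insert_iff, Set.mem_singleton_iff, Prod.mk.injEq] at h1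
  rcases h1 with h | h | h | h | h | h | h | h | h | h | h | h <;> simp_all

theorem ok_mg {c y : List V} (h : OkV c (nt .mg) y) : y = [nt .mg, nt .y] ∨ y = [nt .mf, nt .y] := by
  obtain ⟨U, W, h1, _, _⟩ := (ok_iff _ _ _).1 h
  simp only [rules, Set.mem_insert_iff, Set.mem_singleton_iff, Prod.mk.injEq] at h1
  rcases h1 with h | h | h | h | h | h | h | h | h | h | h | h <;> simp_all

theorem ok_mf {c y : List V} (h : OkV c (nt .mf) y) : y = [ta] := by
  obtain ⟨U, W, h1, _, _⟩ := (ok_iff _ _ _).1 h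
  simp only [rules, Set.mem_insert_iff, Set.mem_singleton_iff, Prod.mk.injEq] at h1
  rcases h1 with h | h | h | h | h | h | h | h | h | h | h | h <;> simp_all

theorem ok_x {c y : List V} (h : OkV c (nt .x) y) :
    (y = [nt .x] ∧ nt .mg ∉ c ∧ nt .mf ∉ c) ∨ (y = [nt .x, nt .y] ∧ nt .m0 ∉ c ∧ nt .mf ∉ c) ∨
      (y = [nt .x', nt .y] ∧ nt .m0 ∉ c ∧ nt .mf ∉ c ∧ nt .x ∉ c) := by
  obtain ⟨U, W, h1, _, h3⟩ := (ok_iff _ _ _).1 h
  simp only [rules, Set.mem_insert_iff, Set.mem_singleton_iff, Prod.mk.injEq] at h1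
  rcases h1 with h | h | h | h | h | h | h | h | h | h | h | h <;> simp_all

theorem ok_x' {c y : List V} (h : OkV c (nt .x') y) :
    (y = [nt .x', nt .y] ∧ nt .m0 ∉ c ∧ nt .mf ∉ c) ∨ (y = [ta] ∧ nt .m0 ∉ c ∧ nt .mg ∉ c) := by
  obtain ⟨U, W, h1, _, h3⟩ := (ok_iff _ _ _).1 h
  simp only [rules, Set.mem_insert_iff, Set.mem_singleton_iff, Prod.mk.injEq] at h1
  rcases h1 with h | h | h | h | h | h | h | h | h | h | h | h <;> simp_all

theorem ok_y {c y : List V} (h : OkV c (nt .y) y) :
    (y = [nt .y] ∧ nt .m0 ∉ c ∧ nt .mf ∉ c) ∨ (y = [tb] ∧ nt .m0 ∉ c ∧ nt .mg ∉ c) := by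
  obtain ⟨U, W, h1, _, h3⟩ := (ok_iff _ _ _).1 h
  simp only [rules, Set.mem_insert_iff, Set.mem_singleton_iff, Prod.mk.injEq] at h1
  rcases h1 with h | h | h | h | h | h | h | h | h | h | h | h <;> simp_all

theorem ok_ta {c y : List V} (h : OkV c ta y) : False := by
  obtain ⟨U, W, h1, _, h3⟩ := (ok_iff _ _ _).1 h
  simp only [rules, Set.mem_insert_iff, Set.mem_singleton_iff, Prod.mk.injEq] at h1
  rcases h1 with h | h | h | h | h | h | h | h | h | h | h | h <;> simp_all

/-! ### The steps in the three phases -/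

theorem sf_zero (k : ℕ) : ∀ (c v : List V), nt .m0 ∈ c → nt .mg ∉ c → nt .mf ∉ c →
    SV c (List.replicate k (nt .x)) v → v = List.replicate k (nt .x) := by
  induction k with
  | zero => intro c v _ _ _ h; exact h
  | succ k ih =>
    intro c v h0 hg hf h
    obtain ⟨y, v', rfl, h1, h2⟩ := (sv_cons _ _ _ _).1 h
    rcases ok_x h1 with ⟨rfl, _⟩ | ⟨_, h3, _⟩ | ⟨_, h3, _⟩
    · rw [ih (c ++ [nt .x]) v' (by simp [h0]) (by simp [hg]) (by simp [hf]) h2]
      rfl
    · exact absurd h0 h3
    · exact absurd h0 h3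

theorem sf_y_g (g : ℕ) : ∀ (c v : List V), nt .mg ∈ c → nt .m0 ∉ c → nt .mf ∉ c →
    SV c (List.replicate g (nt .y)) v → v = List.replicate g (nt .y) := by
  induction g with
  | zero => intro c v _ _ _ h; exact h
  | succ k ih =>
    intro c v h0 hg hf h
    obtain ⟨y, v', rfl, h1, h2⟩ := (sv_cons _ _ _ _).1 h
    rcases ok_y h1 with ⟨rfl, _⟩ | ⟨_, _, h3⟩
    · rw [ih (c ++ [nt .y]) v' (by simp [h0]) (by simp [hg]) (by simp [hf]) h2]
      rfl
    · exact absurd h0 h3

theorem sf_y_f (g : ℕ) : ∀ (c v : List V), nt .mf ∈ c → nt .m0 ∉ c → nt .mg ∉ c →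
    SV c (List.replicate g (nt .y)) v → v = List.replicate g tb := by
  induction g with
  | zero => intro c v _ _ _ h; exact h
  | succ k ih =>
    intro c v h0 hg hf h
    obtain ⟨y, v', rfl, h1, h2⟩ := (sv_cons _ _ _ _).1 h
    rcases ok_y h1 with ⟨_, _, h3⟩ | ⟨rfl, _⟩
    · exact absurd h0 h3
    · rw [ih (c ++ [nt .y]) v' (by simp [h0]) (by simp [hg]) (by simp [hf]) h2]
      rfl

theorem sf_enc_g (g : ℕ) : ∀ (l : List Bool) (c v : List V), nt .mg ∈ c → nt .m0 ∉ c →
    nt .mf ∉ c → SV c (enc l g) v → ∃ l', v = enc l' (g + 1) ∧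
      l'.count true ≤ l.count true + 1 ∧ (nt .x ∈ c → l'.count true ≤ l.count true) := by
  intro l
  induction l with
  | nil =>
    intro c v _ _ _ h
    exact ⟨[], h, by simp, by simp⟩
  | cons s l ih =>
    intro c v hg h0 hf h
    rw [enc_cons] at h
    obtain ⟨y, v', rfl, h1, h2⟩ := (sv_cons _ _ _ _).1 h
    obtain ⟨v1, v2, rfl, h3, h4⟩ := (sv_append _ _ _ _).1 h2
    have h5 := sf_y_g g _ _ (by simp [hg]) (by cases s <;> simp [h0]) (by cases s <;> simp [hf]) h3
    obtain ⟨l', h6, h7, h8⟩ := ih _ _ (by simp [hg])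
      (by cases s <;> simp [h0]) (by cases s <;> simp [hf]) h4
    subst h5 h6
    cases s with
    | true =>
      simp only [if_true] at h1
      rcases ok_x' h1 with ⟨rfl, _⟩ | ⟨_, _, h9⟩
      · refine ⟨true :: l', ?_, ?_, ?_⟩
        · rw [enc_cons, List.replicate_succ]; simp
        · rw [List.count_cons_self, List.count_cons_self]; omega
        · intro hx
          have := h8 (by simp [hx])
          rw [List.count_cons_self, List.count_cons_self]; omega
      · exact absurd hg h9
    | false =>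
      simp only [Bool.false_eq_true, if_false] at h1 h8
      have h8' := h8 (by simp)
      rcases ok_x h1 with ⟨_, h9, _⟩ | ⟨rfl, _⟩ | ⟨rfl, _, _, h9⟩
      · exact absurd hg h9
      · refine ⟨false :: l', ?_, ?_, ?_⟩
        · rw [enc_cons, List.replicate_succ]; simp
        · simp only [List.count_cons]; simp; omega
        · intro _
          simp only [List.count_cons]; simp; omega
      · refine ⟨true :: l', ?_, ?_, ?_⟩
        · rw [enc_cons, List.replicate_succ]; simp
        · simp only [List.count_cons]; simp; omega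
        · intro hx; exact absurd hx h9

theorem sf_enc_f (g : ℕ) : ∀ (l : List Bool) (c v : List V), nt .mf ∈ c → nt .m0 ∉ c →
    nt .mg ∉ c → SV c (enc l g) v → v = (blk 0 1 g l.length).map Symbol.terminal ∧
      l.count true = l.length := by
  intro l
  induction l with
  | nil =>
    intro c v _ _ _ h
    exact ⟨h, rfl⟩
  | cons s l ih =>
    intro c v hf h0 hg h
    rw [enc_cons] at h
    obtain ⟨y, v', rfl, h1, h2⟩ := (sv_cons _ _ _ _).1 h
    obtain ⟨v1, v2, rfl, h3, h4⟩ := (sv_append _ _ _ _).1 h2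
    have h5 := sf_y_f g _ _ (by simp [hf]) (by cases s <;> simp [h0]) (by cases s <;> simp [hg]) h3
    obtain ⟨h6, h7⟩ := ih _ _ (by simp [hf])
      (by cases s <;> simp [h0]) (by cases s <;> simp [hg]) h4
    subst h5 h6
    cases s with
    | true =>
      simp only [if_true] at h1
      rcases ok_x' h1 with ⟨_, _, h9⟩ | ⟨rfl, _⟩
      · exact absurd hf h9
      · refine ⟨?_, by rw [List.count_cons_self, h7]; rfl⟩
        rw [List.length_cons, blk_succ]
        simp
    | false =>
      simp only [Bool.false_eq_true, if_false] at h1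
      rcases ok_x h1 with ⟨_, _, h9⟩ | ⟨_, _, h9⟩ | ⟨_, _, h9, _⟩
      · exact absurd hf h9
      · exact absurd hf h9
      · exact absurd hf h9

/-- the sentential forms -/
def Frm (w : List V) : Prop :=
  (∃ k, w = nt .m0 :: List.replicate k (nt .x)) ∨
  (∃ l g, w = nt .mg :: (List.replicate g (nt .y) ++ enc l g) ∧ l.count true ≤ g) ∨
  (∃ l g, w = nt .mf :: (List.replicate g (nt .y) ++ enc l g) ∧ l.count true ≤ g) ∨
  ∃ n m, w = (blk 0 1 n (m + 1)).map Symbol.terminal ∧ m ≤ n

theorem enc_zero (k : ℕ) : enc (List.replicate k false) 0 = List.replicate k (nt .x) := by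
  induction k with
  | zero => rfl
  | succ k ih =>
    rw [List.replicate_succ, enc_cons, ih]
    rfl

theorem Frm_step {w w' : List V} (hw : Frm w) (h : StepV w w') : Frm w' := by
  rw [stepV] at h
  obtain ⟨_, h⟩ := h
  rcases hw with ⟨k, rfl⟩ | ⟨l, g, rfl, hl⟩ | ⟨l, g, rfl, hl⟩ | ⟨n, m, rfl, _⟩
  · obtain ⟨y, v', rfl, h1, h2⟩ := (sv_cons _ _ _ _).1 h
    have h3 := sf_zero k _ _ (by simp) (by simp) (by simp) h2
    subst h3
    rcases ok_m0 h1 with rfl | rfl
    · left
      exact ⟨k + 1, by rw [List.replicate_succ]; rfl⟩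
    · right; left
      refine ⟨List.replicate k false, 0, ?_, ?_⟩
      · rw [enc_zero]; rfl
      · rw [List.count_replicate]; simp
  · obtain ⟨y, v', rfl, h1, h2⟩ := (sv_cons _ _ _ _).1 h
    obtain ⟨v1, v2, rfl, h3, h4⟩ := (sv_append _ _ _ _).1 h2
    have h5 := sf_y_g g _ _ (by simp) (by simp) (by simp) h3
    obtain ⟨l', h6, h7, _⟩ := sf_enc_g g l _ _ (by simp) (by simp) (by simp) h4
    subst h5 h6
    rcases ok_mg h1 with rfl | rfl
    · right; left
      exact ⟨l', g + 1, by rw [List.replicate_succ]; simp, by omega⟩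
    · right; right; left
      exact ⟨l', g + 1, by rw [List.replicate_succ]; simp, by omega⟩
  · obtain ⟨y, v', rfl, h1, h2⟩ := (sv_cons _ _ _ _).1 h
    obtain ⟨v1, v2, rfl, h3, h4⟩ := (sv_append _ _ _ _).1 h2
    have h5 := sf_y_f g _ _ (by simp) (by simp) (by simp) h3
    obtain ⟨h6, h7⟩ := sf_enc_f g l _ _ (by simp) (by simp) (by simp) h4
    have h8 := ok_mf h1
    subst h5 h6 h8
    right; right; right
    refine ⟨g, l.length, ?_, by omega⟩
    rw [blk_succ]
    simp
  · exfalso
    rw [blk_succ, List.map_cons] at h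
    obtain ⟨y, v', _, h1, _⟩ := (sv_cons _ _ _ _).1 h
    exact ok_ta h1

theorem sound {w : List (Fin 2)} (hw : w ∈ G.lang) : ∃ n m, w = blk 0 1 n m ∧ m ≤ n + 1 := by
  have hF : Frm (w.map Symbol.terminal) := by
    have key : ∀ z : List V, Relation.ReflTransGen StepV [nt .m0] z → Frm z := by
      intro z hz
      induction hz with
      | refl => left; exact ⟨0, rfl⟩
      | tail _ h ih => exact Frm_step ih h
    exact key _ hw
  have hnt : ∀ A : Nt, (nt A : V) ∉ w.map Symbol.terminal := by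
    intro A hA
    obtain ⟨x, _, hx⟩ := List.mem_map.1 hA
    simp at hx
  rcases hF with ⟨k, hF⟩ | ⟨l, g, hF, _⟩ | ⟨l, g, hF, _⟩ | ⟨n, m, hF, hm⟩
  · exact absurd (by rw [hF]; simp) (hnt .m0)
  · exact absurd (by rw [hF]; simp) (hnt .mg)
  · exact absurd (by rw [hF]; simp) (hnt .mf)
  · exact ⟨n, m + 1, List.map_injective_iff.2 (fun x y h => Symbol.terminal.inj h) hF, by omega⟩

/-! ### Derivation of the words `(a b^N)^N` -/

theorem mk_zero (k : ℕ) : ∀ (c : List V), nt .mg ∉ c → nt .mf ∉ c →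
    SV c (List.replicate k (nt .x)) (List.replicate k (nt .x)) := by
  induction k with
  | zero => intro c _ _; rfl
  | succ k ih =>
    intro c hg hf
    refine (sv_cons _ _ _ _).2 ⟨[nt .x], _, rfl, (ok_iff _ _ _).2 ⟨∅, {.mg, .mf}, by simp [rules], by simp, ?_⟩,
      ih _ (by simp [hg]) (by simp [hf])⟩
    rintro A (rfl | rfl)
    · exact hg
    · exact hf

theorem mk_y_g (g : ℕ) : ∀ (c : List V), nt .m0 ∉ c → nt .mf ∉ c →
    SV c (List.replicate g (nt .y)) (List.replicate g (nt .y)) := by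
  induction g with
  | zero => intro c _ _; rfl
  | succ k ih =>
    intro c hg hf
    refine (sv_cons _ _ _ _).2 ⟨[nt .y], _, rfl, (ok_iff _ _ _).2 ⟨∅, {.m0, .mf}, by simp [rules], by simp, ?_⟩,
      ih _ (by simp [hg]) (by simp [hf])⟩
    rintro A (rfl | rfl)
    · exact hg
    · exact hf

theorem mk_y_f (g : ℕ) : ∀ (c : List V), nt .m0 ∉ c → nt .mg ∉ c →
    SV c (List.replicate g (nt .y)) (List.replicate g tb) := by
  induction g with
  | zero => intro c _ _; rfl
  | succ k ih =>
    intro c hg hf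
    refine (sv_cons _ _ _ _).2 ⟨[tb], _, rfl, (ok_iff _ _ _).2 ⟨∅, {.m0, .mg}, by simp [rules], by simp, ?_⟩,
      ih _ (by simp [hg]) (by simp [hf])⟩
    rintro A (rfl | rfl)
    · exact hg
    · exact hf

theorem mk_enc_same (g : ℕ) : ∀ (l : List Bool) (c : List V), nt .m0 ∉ c → nt .mf ∉ c →
    SV c (enc l g) (enc l (g + 1)) := by
  intro l
  induction l with
  | nil => intro c _ _; rfl
  | cons s l ih =>
    intro c h0 hf
    rw [enc_cons, enc_cons]
    refine (sv_cons _ _ _ _).2 ⟨[nt (if s then .x' else .x), nt .y], List.replicate g (nt .y) ++ enc l (g + 1), ?_,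
      ?_, ?_⟩
    · rw [List.replicate_succ]; simp
    · cases s with
      | true =>
        refine (ok_iff _ _ _).2 ⟨∅, {.m0, .mf}, by simp [rules], by simp, ?_⟩
        rintro A (rfl | rfl)
        · exact h0
        · exact hf
      | false =>
        refine (ok_iff _ _ _).2 ⟨∅, {.m0, .mf}, by simp [rules], by simp, ?_⟩
        rintro A (rfl | rfl)
        · exact h0
        · exact hf
    · rw [sv_append]
      refine ⟨_, _, rfl, mk_y_g g _ ?_ ?_, ih _ ?_ ?_⟩ <;> cases s <;> simp [h0, hf]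

theorem mk_enc_mark (g i k : ℕ) : ∀ (c : List V), nt .m0 ∉ c → nt .mf ∉ c → nt .x ∉ c →
    SV c (enc (List.replicate i true ++ false :: List.replicate k false) g)
      (enc (List.replicate i true ++ true :: List.replicate k false) (g + 1)) := by
  induction i with
  | zero =>
    intro c h0 hf hx
    rw [List.replicate_zero, List.nil_append, List.nil_append, enc_cons, enc_cons]
    refine (sv_cons _ _ _ _).2 ⟨[nt .x', nt .y], List.replicate g (nt .y) ++ enc (List.replicate k false) (g + 1), ?_,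
      ?_, ?_⟩
    · rw [List.replicate_succ]; simp
    · refine (ok_iff _ _ _).2 ⟨∅, {.m0, .mf, .x}, by simp [rules], by simp, ?_⟩
      rintro A (rfl | rfl | rfl)
      · exact h0
      · exact hf
      · exact hx
    · rw [sv_append]
      refine ⟨_, _, rfl, mk_y_g g _ ?_ ?_, mk_enc_same g _ _ ?_ ?_⟩ <;> simp [h0, hf]
  | succ i ih =>
    intro c h0 hf hx
    rw [List.replicate_succ, List.cons_append, List.cons_append, enc_cons, enc_cons]
    refine (sv_cons _ _ _ _).2 ⟨[nt .x', nt .y], List.replicate g (nt .y) ++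
      enc (List.replicate i true ++ true :: List.replicate k false) (g + 1), ?_, ?_, ?_⟩
    · rw [List.replicate_succ]; simp
    · refine (ok_iff _ _ _).2 ⟨∅, {.m0, .mf}, by simp [rules], by simp, ?_⟩
      rintro A (rfl | rfl)
      · exact h0
      · exact hf
    · rw [sv_append]
      refine ⟨_, _, rfl, mk_y_g g _ ?_ ?_, ih _ ?_ ?_ ?_⟩ <;> simp [h0, hf, hx]

theorem mk_enc_f (g : ℕ) : ∀ (k : ℕ) (c : List V), nt .m0 ∉ c → nt .mg ∉ c →
    SV c (enc (List.replicate k true) g) ((blk 0 1 g k).map Symbol.terminal) := by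
  intro k
  induction k with
  | zero => intro c _ _; rfl
  | succ k ih =>
    intro c h0 hg
    rw [List.replicate_succ, enc_cons, blk_succ]
    refine (sv_cons _ _ _ _).2 ⟨[ta], List.replicate g tb ++ (blk 0 1 g k).map Symbol.terminal, by simp, ?_, ?_⟩
    · refine (ok_iff _ _ _).2 ⟨∅, {.m0, .mg}, by simp [rules], by simp, ?_⟩
      rintro A (rfl | rfl)
      · exact h0
      · exact hg
    · rw [sv_append]
      refine ⟨_, _, rfl, mk_y_f g _ ?_ ?_, ih _ ?_ ?_⟩ <;> simp [h0, hg]

theorem der_zero (k : ℕ) : Relation.ReflTransGen StepV [nt .m0]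
    (nt .m0 :: List.replicate k (nt .x)) := by
  induction k with
  | zero => exact Relation.ReflTransGen.refl
  | succ k ih =>
    refine ih.tail ?_
    refine (stepV _ _).2 ?_
    refine ⟨by simp, (sv_cons _ _ _ _).2 ⟨[nt .m0, nt .x], List.replicate k (nt .x), by rw [List.replicate_succ]; rfl,
      (ok_iff _ _ _).2 ⟨∅, ∅, by simp [rules], by simp, by simp⟩, mk_zero k _ (by simp) (by simp)⟩⟩

theorem der_g (k : ℕ) : ∀ i ≤ k, Relation.ReflTransGen StepV [nt .m0]
    (nt .mg :: (List.replicate i (nt .y) ++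
      enc (List.replicate i true ++ List.replicate (k - i) false) i)) := by
  intro i
  induction i with
  | zero =>
    intro _
    refine (der_zero k).tail ?_
    refine (stepV _ _).2 ?_
    refine ⟨by simp, (sv_cons _ _ _ _).2 ⟨[nt .mg], List.replicate k (nt .x), ?_,
      (ok_iff _ _ _).2 ⟨∅, ∅, by simp [rules], by simp, by simp⟩, mk_zero k _ (by simp) (by simp)⟩⟩
    simp [enc_zero]
  | succ i ih =>
    intro hi
    refine (ih (by omega)).tail ?_
    refine (stepV _ _).2 ?_
    have h1 : List.replicate (k - i) false = false :: List.replicate (k - (i + 1)) false := by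
      rw [← List.replicate_succ]
      congr 1
      omega
    have h2 : List.replicate (i + 1) true ++ List.replicate (k - (i + 1)) false =
        List.replicate i true ++ true :: List.replicate (k - (i + 1)) false := by
      rw [List.replicate_succ']
      simp
    rw [h1, h2]
    refine ⟨by simp, (sv_cons _ _ _ _).2 ⟨[nt .mg, nt .y], List.replicate i (nt .y) ++
      enc (List.replicate i true ++ true :: List.replicate (k - (i + 1)) false) (i + 1), ?_,
      (ok_iff _ _ _).2 ⟨∅, ∅, by simp [rules], by simp, by simp⟩, ?_⟩⟩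
    · rw [List.replicate_succ]; simp
    · rw [sv_append]
      refine ⟨_, _, rfl, mk_y_g i _ (by simp) (by simp), ?_⟩
      exact mk_enc_mark i i _ _ (by simp) (by simp) (by simp)

theorem der_f (k : ℕ) : blk 0 1 (k + 1) (k + 1) ∈ G.lang := by
  have h1 := der_g k k le_rfl
  rw [Nat.sub_self, List.replicate_zero, List.append_nil] at h1
  have h2 : StepV (nt .mg :: (List.replicate k (nt .y) ++ enc (List.replicate k true) k))
      (nt .mf :: (List.replicate (k + 1) (nt .y) ++ enc (List.replicate k true) (k + 1))) := by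
    refine (stepV _ _).2 ?_
    refine ⟨by simp, (sv_cons _ _ _ _).2 ⟨[nt .mf, nt .y], List.replicate k (nt .y) ++
      enc (List.replicate k true) (k + 1), ?_,
      (ok_iff _ _ _).2 ⟨∅, ∅, by simp [rules], by simp, by simp⟩, ?_⟩⟩
    · rw [List.replicate_succ]; simp
    · rw [sv_append]
      exact ⟨_, _, rfl, mk_y_g k _ (by simp) (by simp), mk_enc_same k _ _ (by simp) (by simp)⟩
  have h3 : StepV (nt .mf :: (List.replicate (k + 1) (nt .y) ++ enc (List.replicate k true) (k + 1)))
      ((blk 0 1 (k + 1) (k + 1)).map Symbol.terminal) := by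
    refine (stepV _ _).2 ?_
    refine ⟨by simp, (sv_cons _ _ _ _).2 ⟨[ta], List.replicate (k + 1) tb ++
      (blk 0 1 (k + 1) k).map Symbol.terminal, ?_,
      (ok_iff _ _ _).2 ⟨∅, ∅, by simp [rules], by simp, by simp⟩, ?_⟩⟩
    · rw [blk_succ]; simp
    · rw [sv_append]
      exact ⟨_, _, rfl, mk_y_f (k + 1) _ (by simp) (by simp), mk_enc_f (k + 1) k _ (by simp) (by simp)⟩
  exact (h1.tail h2).tail h3

/-- Some language generated by a propagating left forbidding E0L grammar is generated by no ET0L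
grammar. -/
theorem result : ∃ L : Set (List (Fin 2)), IsLFEP0L L ∧ ¬ IsET0L L := by
  refine ⟨G.lang, ⟨G, ?_, ?_, rfl⟩, ?_⟩
  · intro r hr
    rcases hr with rfl | rfl | rfl | rfl | rfl | rfl | rfl | rfl | rfl | rfl | rfl | rfl <;> rfl
  · intro r hr
    rcases hr with rfl | rfl | rfl | rfl | rfl | rfl | rfl | rfl | rfl | rfl | rfl | rfl <;>
      exact List.cons_ne_nil _ _
  · refine not_et0l_first _ (fun w hw => sound hw) ?_
    intro n
    exact ⟨n + 1, by omega, der_f n⟩

end Pool.Agent.Results.MP_7f9305_lc.PropagatingNotET0L
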